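import Pool.Agent.Y790.LG.Def

/-!
# Spiders with long legs: class paths (helper681)
-/

set_option autoImplicit false

namespace Pool.Agent.Y790.LG

open Pool.Agent.TH56.GT

theorem infix_chain {α : Type} {R : α → α → Prop} {l : List α} {a b : α} (h : [a, b] <:+: l)
    (hl : l.IsChain R) : R a b := by
  obtain ⟨s, t, hst⟩ := h
  have h4 : l = s ++ a :: b :: t := by rw [← hst]; simp
  exact List.isChain_iff_forall_rel_of_append_cons_cons.1 hl h4

theorem infix_mem {α : Type} {l : List α} {a b : α} (h : [a, b] <:+: l) : a ∈ l ∧ b ∈ l :=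
  ⟨h.subset (by simp), h.subset (by simp)⟩

/-- from labels to positions -/
theorem conv {P n a z : ℕ} {W : List ℕ} (hW : Pth P n a z W) (g : ℕ → ℤ) (pos : ℕ)
    (h1 : g a = pos) (h2 : g z = n - 1 - pos) (hb : ∀ y < n, 0 ≤ g y ∧ g y < n)
    (hs : ∀ v : ℤ, 0 ≤ v → v < n → ∃ y < n, g y = v)
    (hsum : ∀ y y' : ℕ, y < P → P ≤ y' → y' < n → g y + g y' = 2 * ((n : ℤ) - 1 - (y' - y)) + 1) :
    Cls n pos (W.map g) := by
  have hlt := hW.lt
  obtain ⟨w1, w2, w3, w4, w5, w6⟩ := hW
  refine ⟨by simpa using w1, by simp [w2, h1], by simp [w3, h2], ?_, ?_, ?_, ?_⟩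
  · intro v hv0 hv1
    obtain ⟨y, hy, rfl⟩ := hs v hv0 hv1
    exact List.mem_map_of_mem (w4 y hy)
  · intro v hv
    obtain ⟨y, hy, rfl⟩ := List.mem_map.1 hv
    exact hb y (hlt y hy)
  · intro i hi0 hi1
    obtain ⟨a', b', hab, hd⟩ := w5 ((n : ℤ) - 1 - i).toNat (by omega) (by omega)
    have hA := infix_chain hab w6
    have hm := infix_mem hab
    have ha := hlt a' hm.1
    have hb' := hlt b' hm.2
    refine ⟨g a', g b', by simpa using hab.map g, ?_⟩
    rcases hA with ⟨h3, h4⟩ | ⟨h3, h4⟩
    · rw [hsum a' b' h3 h4 hb']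
      omega
    · rw [add_comm, hsum b' a' h3 h4 ha]
      omega
  · have h7 : W.IsChain (fun a b => Alt P a b ∧ a < n ∧ b < n) := by
      refine w6.imp_of_mem_imp fun a b ha hb' hab => ⟨hab, hlt a ha, hlt b hb'⟩
    refine List.isChain_map_of_isChain _ (fun a b hab => ?_) h7
    obtain ⟨h8 | h8, h9, h10⟩ := hab
    · have := hsum a b h8.1 h8.2 h10
      unfold Od
      omega
    · have := hsum b a h8.1 h8.2 h9
      unfold Od
      omega

theorem cls : ClsStm := by
  intro w p hp hodd
  rcases Nat.even_or_odd' w with ⟨h, rfl | rfl⟩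
  · -- even length
    have main : ∀ x, x < h → ∀ (a z pos : ℕ), (∃ W, Pth h (2 * h) a z W) →
        ((if a < h then 2 * (a : ℤ) + 1 else 2 * (2 * h - 1 - a)) = pos) →
        ((if z < h then 2 * (z : ℤ) + 1 else 2 * (2 * h - 1 - z)) = 2 * h - 1 - pos) →
        ∃ l, Cls (2 * h) pos l := by
      intro x _ a z pos hW h1 h2
      obtain ⟨W, hW⟩ := hW
      refine ⟨_, conv hW (fun y => if y < h then 2 * (y : ℤ) + 1 else 2 * (2 * h - 1 - y)) pos h1
        (by push_cast; exact h2) ?_ ?_ ?_⟩
      · intro y hy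
        show 0 ≤ (if y < h then 2 * (y : ℤ) + 1 else 2 * (2 * h - 1 - y)) ∧
          (if y < h then 2 * (y : ℤ) + 1 else 2 * (2 * h - 1 - y)) < ((2 * h : ℕ) : ℤ)
        split_ifs <;> omega
      · intro v hv0 hv1
        rcases Int.even_or_odd' v with ⟨k, rfl | rfl⟩
        · refine ⟨(2 * h - 1 - k).toNat, by omega, ?_⟩
          show (if (2 * (h : ℤ) - 1 - k).toNat < h then _ else _) = _
          rw [if_neg (by omega)]
          omega
        · refine ⟨k.toNat, by omega, ?_⟩
          show (if k.toNat < h then _ else _) = _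
          rw [if_pos (by omega)]
          omega
      · intro y y' h3 h4 h5
        show (if y < h then 2 * (y : ℤ) + 1 else 2 * (2 * h - 1 - y)) +
          (if y' < h then 2 * (y' : ℤ) + 1 else 2 * (2 * h - 1 - y')) = _
        rw [if_pos h3, if_neg (by omega)]
        push_cast
        ring
    rcases Nat.even_or_odd' p with ⟨x, rfl | rfl⟩
    · obtain ⟨W, hW⟩ := even h (h - 1 - x) (by omega)
      refine main 0 (by omega) (h - 1 - x + h) (h - 1 - x) (2 * x) ⟨_, hW.rev⟩ ?_ ?_
      · rw [if_neg (by omega)]; omega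
      · rw [if_pos (by omega)]; omega
    · obtain ⟨W, hW⟩ := even h x (by omega)
      refine main 0 (by omega) x (x + h) (2 * x + 1) ⟨_, hW⟩ ?_ ?_
      · rw [if_pos (by omega)]; push_cast; ring
      · rw [if_neg (by omega)]; push_cast; ring
  · -- odd length
    have hpe : p % 2 = 0 := hodd (by omega)
    obtain ⟨x, rfl⟩ : ∃ x, p = 2 * x := ⟨p / 2, by omega⟩
    obtain ⟨W, hW⟩ := odd h x (by omega) (by omega)
    refine ⟨_, conv hW (fun y => if y ≤ h then 2 * (y : ℤ) else 2 * (2 * h - y) + 1) (2 * x) ?_ ?_ ?_ ?_ ?_⟩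
    · show (if x ≤ h then _ else _) = _
      rw [if_pos (by omega)]; push_cast; ring
    · show (if h - x ≤ h then _ else _) = _
      rw [if_pos (by omega)]; push_cast; omega
    · intro y hy
      show 0 ≤ (if y ≤ h then 2 * (y : ℤ) else 2 * (2 * h - y) + 1) ∧
        (if y ≤ h then 2 * (y : ℤ) else 2 * (2 * h - y) + 1) < ((2 * h + 1 : ℕ) : ℤ)
      split_ifs <;> omega
    · intro v hv0 hv1
      rcases Int.even_or_odd' v with ⟨k, rfl | rfl⟩
      · refine ⟨k.toNat, by omega, ?_⟩
        show (if k.toNat ≤ h then _ else _) = _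
        rw [if_pos (by omega)]
        omega
      · refine ⟨(2 * h - k).toNat, by omega, ?_⟩
        show (if (2 * (h : ℤ) - k).toNat ≤ h then _ else _) = _
        rw [if_neg (by omega)]
        omega
    · intro y y' h3 h4 h5
      show (if y ≤ h then 2 * (y : ℤ) else 2 * (2 * h - y) + 1) +
        (if y' ≤ h then 2 * (y' : ℤ) else 2 * (2 * h - y') + 1) = _
      rw [if_pos (by omega), if_neg (by omega)]
      push_cast
      ring

/-- the label of a position, for one leg -/
def lab (g : ℕ) (N : ℤ) : ℕ := if N % 2 = 0 then ((g : ℤ) - N / 2).toNat else ((N + 1) / 2).toNat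

theorem one (h1 : ClsStm) : OneStm := by
  intro g hg
  obtain ⟨l, l1, l2, l3, l4, l5, l6, l7⟩ := h1 g 0 (by omega) (fun _ => rfl)
  have hchain : l.IsChain (fun a b => Od a b ∧ (0 ≤ a ∧ a < (g : ℤ)) ∧ (0 ≤ b ∧ b < (g : ℤ))) :=
    l7.imp_of_mem_imp fun a b ha hb hab => ⟨hab, l5 a ha, l5 b hb⟩
  refine ⟨g / 2 + 1, [l.map (lab g)], by omega, by simp; omega, by simp [l1], ⟨?_, ?_⟩, ?_⟩
  · intro y hy
    simp only [List.sum_cons, List.sum_nil, add_zero] at hy
    rcases Nat.eq_zero_or_pos y with h0 | h0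
    · exact Or.inl h0
    right
    refine ⟨_, List.mem_singleton_self _, List.mem_map.2 ?_⟩
    by_cases h2 : y ≤ g / 2
    · refine ⟨2 * y - 1, l4 _ (by omega) (by omega), ?_⟩
      unfold lab
      rw [if_neg (by omega)]
      omega
    · refine ⟨2 * ((g : ℤ) - y), l4 _ (by omega) (by omega), ?_⟩
      unfold lab
      rw [if_pos (by omega)]
      omega
  · intro d hd hdg
    simp only [List.sum_cons, List.sum_nil, add_zero] at hdg
    refine ⟨_, List.mem_singleton_self _, ?_⟩
    by_cases h2 : d = g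
    · subst h2
      refine Df.join_cons (b := lab d 0) (by rw [List.head?_map, l2]; simp) (Or.inl ?_)
      unfold lab
      simp
    · obtain ⟨a, b, hab, hs⟩ := l6 ((g : ℤ) - 1 - d) (by omega) (by omega)
      refine Df.cons ⟨lab g a, lab g b, by simpa using hab.map (lab g), ?_⟩
      have hm := infix_mem hab
      have ha := l5 a hm.1
      have hb := l5 b hm.2
      unfold lab
      by_cases he : a % 2 = 0
      · rw [if_pos he, if_neg (by omega)]
        omega
      · rw [if_neg he, if_pos (by omega)]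
        omega
  · intro w hw
    rw [List.mem_singleton] at hw
    subst hw
    rw [List.isChain_cons]
    refine ⟨fun y hy => ?_, ?_⟩
    · rw [List.head?_map, l2] at hy
      have hy' : lab g 0 = y := by simpa using hy
      subst hy'
      unfold lab Alt
      simp
      omega
    · refine List.isChain_map_of_isChain _ (fun a b hab => ?_) hchain
      obtain ⟨h2, h3, h4⟩ := hab
      unfold Od at h2
      unfold lab Alt
      by_cases he : a % 2 = 0
      · rw [if_pos he, if_neg (by omega)]
        omega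
      · rw [if_neg he, if_pos (by omega)]
        omega

end Pool.Agent.Y790.LG
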