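import Pool.Agent.Y790.LG.Def

/-!
# Spiders with long legs: induction over the levels
-/

set_option autoImplicit false

namespace Pool.Agent.Y790.LG

theorem St.congr {n : ℕ} {x x' : ℕ → ℤ} {l l' : ℕ → ℕ} {g g' : ℕ} (h : St n x l g)
    (hx : ∀ i ≤ 2 * n, x i = x' i) (hl : ∀ i < n, l i = l' i) (hg : g = g') : St n x' l' g' := by
  obtain ⟨W, P, G, hW, h1, h2, h3, h4, h5, h6, h7, h8⟩ := h
  subst hg
  have e1 : ∀ m < n, x (2 * m) = x' (2 * m) := fun m hm => hx _ (by omega)
  have e2 : ∀ m < n, x (2 * m + 1) = x' (2 * m + 1) := fun m hm => hx _ (by omega)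
  refine ⟨W, P, G, ?_, ?_, h2, h3, h4, h5, ?_, ?_, ?_⟩
  · rw [hW]
    congr 1
    refine Finset.sum_congr rfl fun m hm => ?_
    rw [hl m (Finset.mem_range.1 hm)]
  · intro m hm
    rw [← hl m hm]
    exact h1 m hm
  · intro v hv hv1 hv2
    rcases h6 v hv hv1 hv2 with h | ⟨m, hm, h⟩
    · left
      rw [← hx (2 * n) le_rfl]
      exact h
    · right
      refine ⟨m, hm, ?_⟩
      rw [← e1 m hm, ← e2 m hm]
      exact h
  · rw [← hx (2 * n) le_rfl]
    exact h7
  · intro m hm
    rw [← e1 m hm, ← e2 m hm]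
    exact h8 m hm

theorem St.zero (y : ℕ → ℤ) (l : ℕ → ℕ) : St 0 y l 0 := by
  refine ⟨0, fun _ => [], [], by simp, by simp, rfl, ?_, by simp, by simp, ?_, by simp, by simp⟩
  · intro u h1 h2
    omega
  · intro v h1 h2 h3
    omega

theorem Lags.pred {n : ℕ} {P : ℕ → ℕ} (h : Lags (n + 1) P) : Lags n P :=
  ⟨fun m hm => h.1 m (by omega), fun m hm => h.2 m (by omega)⟩

theorem main (h1 : WaitStm) (h2 : AnyStm) (h3 : FoldStm) : MainStm := by
  intro n
  induction n with
  | zero =>
    intro P hP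
    refine ⟨2 * P 0 + 2, fun κ hκ l g _ _ _ _ hg => ?_⟩
    have hκ0 : κ = 0 := by omega
    subst hκ0
    have h := h1 0 (fun i => if i = 0 then P 0 else 0) g ?_ ?_ l 0 (St.zero _ _)
    · exact h.congr (fun i _ => rfl) (fun i hi => by omega) (Nat.zero_add g)
    · intro j hj
      have : j = 0 := by omega
      subst this
      simpa using hg
    · intro j hj
      have : j = 0 := by omega
      subst this
      simpa using hP.1 0 le_rfl
  | succ n ih =>
    intro P hP
    obtain ⟨C', hC'⟩ := ih P hP.pred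
    obtain ⟨N₁, hN₁⟩ := h2 (n + 1) (P (n + 1)) (hP.1 (n + 1) le_rfl)
    obtain ⟨w, hw⟩ : ∃ w, w = 2 * P (n + 1) + 2 := ⟨_, rfl⟩
    obtain ⟨w', hw'⟩ : ∃ w', w' = 2 * P n + 2 := ⟨_, rfl⟩
    refine ⟨2 * C' + 2 * w' + 2 * w + 2 * N₁ + 4, ?_⟩
    intro κ hκ l g hpar hCl hsep hg hCg
    obtain ⟨k, hk, hmin⟩ := Finset.exists_min_image (Finset.range (n + 1)) l ⟨0, by simp⟩
    rw [Finset.mem_range] at hk
    have hmin' : ∀ i < n + 1, l k ≤ l i := fun i hi => hmin i (Finset.mem_range.2 hi)
    obtain ⟨κs, hκs1, hκs2⟩ : ∃ κs, κs ≤ 2 * n + 2 ∧ rt (2 * n + 3) (2 * k + 2) κs = n := by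
      by_cases hc : n + 2 * k + 2 ≤ 2 * n + 2
      · refine ⟨n + 2 * k + 2, hc, ?_⟩
        unfold rt
        rw [if_neg (by omega)]
        omega
      · refine ⟨2 * k - n - 1, by omega, ?_⟩
        unfold rt
        rw [if_pos (by omega)]
        omega
    have hlk := hpar k hk
    have hClk := hCl k hk
    have hgk := hg k hk
    obtain ⟨N, hN⟩ : ∃ N, N = l k / 2 - (w + 1) := ⟨_, rfl⟩
    have hN2 : l k = 2 * N + 2 * (w + 1) := by omega
    have hNN : N₁ ≤ N := by omega
    have hsk : ∀ i < n + 1, i ≠ k → l k + (2 * C' + 2 * w' + 2 * w + 2 * N₁ + 4) ≤ l i := by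
      intro i hi hik
      rcases hsep k hk i hi (Ne.symm hik) with h | h
      · exact h
      · have := hmin' i hi
        omega
    -- the new lengths
    let l' : ℕ → ℕ := fun m => if m < k then l m - (l k + 2 * w') else l (m + 1) - (l k + 2 * w')
    have hl'1 : ∀ m, m < k → l' m = l m - (l k + 2 * w') := fun m hm => if_pos hm
    have hl'2 : ∀ m, ¬ m < k → l' m = l (m + 1) - (l k + 2 * w') := fun m hm => if_neg hm
    -- index map
    have hidx : ∀ m < n, ∃ m', m' < n + 1 ∧ m' ≠ k ∧ l' m + (l k + 2 * w') = l m' ∧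
        (m' = if m < k then m else m + 1) := by
      intro m hm
      by_cases hmk : m < k
      · refine ⟨m, by omega, by omega, ?_, by rw [if_pos hmk]⟩
        have := hsk m (by omega) (by omega)
        rw [hl'1 m hmk]
        omega
      · refine ⟨m + 1, by omega, by omega, ?_, by rw [if_neg hmk]⟩
        have := hsk (m + 1) (by omega) (by omega)
        rw [hl'2 m hmk]
        omega
    have hSt : St n (Kst n (P n) (if κs < 2 * k then κs else κs - 2)) l' (g - (l k / 2 + w')) := by
      refine hC' _ ?_ l' _ ?_ ?_ ?_ ?_ ?_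
      · split_ifs <;> omega
      · intro i hi
        obtain ⟨m', hm1, hm2, hm3, -⟩ := hidx i hi
        have := hpar m' hm1
        omega
      · intro i hi
        obtain ⟨m', hm1, hm2, hm3, -⟩ := hidx i hi
        have := hsk m' hm1 hm2
        omega
      · intro i hi j hj hij
        obtain ⟨m', hm1, hm2, hm3, hm4⟩ := hidx i hi
        obtain ⟨m'', hn1, hn2, hn3, hn4⟩ := hidx j hj
        have hne : m' ≠ m'' := by
          rw [hm4, hn4]
          split_ifs <;> omega
        rcases hsep m' hm1 m'' hn1 hne with h | h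
        · left
          omega
        · right
          omega
      · intro i hi
        obtain ⟨m', hm1, hm2, hm3, -⟩ := hidx i hi
        have := hg m' hm1
        omega
      · omega
    have hF := h3 n k (P (n + 1)) (P n) w w' κs (by omega) (hP.1 _ le_rfl) (hP.1 _ (by omega))
      (hP.2 n (by omega)) (by omega) (by omega) hκs1 hκs2 l' _ hSt
    have hA := hN₁ N hNN κ hκ κs (by omega) _ _ hF
    refine hA.congr (fun i _ => rfl) ?_ ?_
    · intro i hi
      simp only [ins]
      by_cases hik : i < k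
      · rw [if_pos hik, hl'1 i hik]
        have := hsk i hi (by omega)
        omega
      · rw [if_neg hik]
        by_cases hik2 : i = k
        · subst hik2
          rw [if_pos rfl]
          omega
        · rw [if_neg hik2, hl'2 (i - 1) (by omega)]
          have := hsk i hi hik2
          have e : i - 1 + 1 = i := by omega
          rw [e]
          omega
    · show g - (l k / 2 + w') + (w + w' + 1) + N = g
      omega

theorem pex : PexStm := by
  intro n
  obtain ⟨L, hL⟩ : ∃ L : ℕ, L = 3 * ∏ i ∈ Finset.range (n + 1), (2 * i + 1) := ⟨_, rfl⟩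
  have hodd : Odd L := by
    rw [hL]
    refine Odd.mul (by decide) ?_
    refine Finset.prod_induction _ Odd (fun a b ha hb => ha.mul hb) odd_one ?_
    intro i _
    exact ⟨i, rfl⟩
  have hdiv : ∀ m ≤ n, ∃ j : ℕ, L = (2 * m + 1) * (2 * j + 1) ∧ 1 ≤ j := by
    intro m hm
    have hm' : m ∈ Finset.range (n + 1) := Finset.mem_range.2 (by omega)
    obtain ⟨c, hc⟩ : ∃ c, ∏ i ∈ Finset.range (n + 1), (2 * i + 1) = (2 * m + 1) * c :=
      Finset.dvd_prod_of_mem (fun i => 2 * i + 1) hm'
    have hLc : L = (2 * m + 1) * (3 * c) := by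
      rw [hL, hc]
      ring
    have hoc : Odd (3 * c) := by
      rw [hLc] at hodd
      exact (Nat.odd_mul.1 hodd).2
    obtain ⟨j, hj⟩ := hoc
    refine ⟨j, by rw [hLc, hj], ?_⟩
    omega
  choose! j hj1 hj2 using hdiv
  refine ⟨fun m => (2 * m + 1) * (j m * (j m + 1)), ⟨?_, ?_⟩, ?_⟩
  · intro m _
    have h : 2 ∣ j m * (j m + 1) := (Nat.even_mul_succ_self (j m)).two_dvd
    exact Nat.mod_eq_zero_of_dvd (Dvd.dvd.mul_left h _)
  · intro m hm
    have e1 := hj1 m (by omega)
    have e2 := hj1 (m + 1) (by omega)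
    have e3 : (2 * m + 1) * (2 * j m + 1) = (2 * (m + 1) + 1) * (2 * j (m + 1) + 1) := e1.symm.trans e2
    have e4 : ((2 * m + 1) * (2 * j m + 1)) ^ 2 = ((2 * (m + 1) + 1) * (2 * j (m + 1) + 1)) ^ 2 := by
      rw [e3]
    show (2 * m + 1) * (j m * (j m + 1)) * (2 * m + 1) =
      (2 * (m + 1) + 1) * (j (m + 1) * (j (m + 1) + 1)) * (2 * m + 3) + (2 * m + 2)
    generalize j m = a at *
    generalize j (m + 1) = b at *
    have h4 : 4 * ((2 * m + 1) * (a * (a + 1)) * (2 * m + 1)) =
        4 * ((2 * (m + 1) + 1) * (b * (b + 1)) * (2 * m + 3) + (2 * m + 2)) := by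
      nlinarith [e4]
    omega
  · have h := hj2 n le_rfl
    show 1 ≤ (2 * n + 1) * (j n * (j n + 1))
    have : 0 < j n * (j n + 1) := by positivity
    exact Nat.mul_pos (by omega) this

end Pool.Agent.Y790.LG
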