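import Pool.Agent.Y790.LG.Def

/-!
# Spiders with long legs: elementary steps
-/

set_option autoImplicit false

namespace Pool.Agent.Y790.LG

namespace StepAux

/-- the path moved into the class `s` -/
def cm (q s : ℤ) (l : List ℤ) : List ℤ := l.map (fun u => s + q * u)

lemma Sm_map (q s : ℤ) (l : List ℤ) (v : ℤ) (h : Sm l v) : Sm (cm q s l) (2 * s + q * v) := by
  obtain ⟨a, b, h1, h2⟩ := h
  refine ⟨s + q * a, s + q * b, ?_, by rw [← h2]; ring⟩
  exact h1.map (fun u => s + q * u)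

lemma Sm_cons (x : ℤ) (l : List ℤ) (v : ℤ) (h : Sm l v) : Sm (x :: l) v := by
  obtain ⟨a, b, h1, h2⟩ := h
  exact ⟨a, b, List.infix_cons h1, h2⟩

lemma Sm_head (x y : ℤ) (l : List ℤ) (h : l.head? = some y) : Sm (x :: l) (x + y) := by
  cases l with
  | nil => simp at h
  | cons z l =>
    simp only [List.head?_cons, Option.some.injEq] at h
    subst h
    exact ⟨x, z, ⟨[], l, rfl⟩, rfl⟩

lemma chain_map (n : ℕ) (s : ℤ) (l : List ℤ) (h : l.IsChain Od) :
    (cm (2 * n + 1) s l).IsChain Od := by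
  unfold cm
  rw [List.isChain_map]
  refine h.imp ?_
  intro a b hab
  unfold Od at *
  have h2 : (s + (2 * (n : ℤ) + 1) * a) + (s + (2 * n + 1) * b) =
      2 * (s + n * (a + b)) + (a + b) := by ring
  rw [h2]; omega

lemma sum_cst (w t : ℕ) : ∀ q : ℕ, ∑ s ∈ Finset.range q, cst w t s = q * w + min t q
  | 0 => by simp
  | q + 1 => by
    rw [Finset.sum_range_succ, sum_cst w t q]
    have h : (q + 1) * w = q * w + w := by ring
    unfold cst
    split_ifs with h1 <;> omega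

lemma sum_a (n w t : ℕ) (a : ℕ → ℕ) (ht : t ≤ 2 * n + 1) (ha : ∀ j ≤ 2 * n, a j ≤ 2 * n)
    (hs : ∀ s ≤ 2 * n, ∃ j ≤ 2 * n, a j = s) :
    ∑ j ∈ Finset.range (2 * n + 1), cst w t (a j) = (2 * n + 1) * w + t := by
  have h1 : (Finset.range (2 * n + 1)).image a = Finset.range (2 * n + 1) := by
    ext s
    simp only [Finset.mem_image, Finset.mem_range]
    constructor
    · rintro ⟨j, hj, rfl⟩
      have := ha j (by omega)
      omega
    · intro hs1
      obtain ⟨j, hj, hj2⟩ := hs s (by omega)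
      exact ⟨j, by omega, hj2⟩
  have h2 : Set.InjOn a (Finset.range (2 * n + 1) : Finset ℕ) := by
    rw [← Finset.card_image_iff, h1]
  have h3 : ∑ s ∈ (Finset.range (2 * n + 1)).image a, cst w t s =
      ∑ j ∈ Finset.range (2 * n + 1), cst w t (a j) := Finset.sum_image h2
  rw [← h3, h1, sum_cst, min_eq_left ht]

lemma lt_cst (q w t s u : ℕ) (ht : t ≤ q) (h : s + q * u < q * w + t) : u < cst w t s := by
  unfold cst
  split_ifs with h1
  · by_contra h2
    have h3 : q * (w + 1) ≤ q * u := Nat.mul_le_mul_left q (by omega)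
    have h4 : q * (w + 1) = q * w + q := by ring
    omega
  · by_contra h2
    have h3 : q * w ≤ q * u := Nat.mul_le_mul_left q (by omega)
    omega

lemma cst_lt (q w t s u : ℕ) (hs : s < q) (h : u < cst w t s) : s + q * u < q * w + t := by
  unfold cst at h
  split_ifs at h with h1
  · have h3 : q * u ≤ q * w := Nat.mul_le_mul_left q (by omega)
    omega
  · have h3 : q * (u + 1) ≤ q * w := Nat.mul_le_mul_left q (by omega)
    have h4 : q * (u + 1) = q * u + q := by ring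
    omega

/-- the common part of the two steps -/
lemma core (h1 : ClsStm) (n : ℕ) (X : ℕ → ℤ) (a p : ℕ → ℕ) (w t : ℕ) (ht : t ≤ 2 * n + 1)
    (ha : ∀ j ≤ 2 * n, a j ≤ 2 * n) (hs : ∀ s ≤ 2 * n, ∃ j ≤ 2 * n, a j = s)
    (hod : ∀ j ≤ 2 * n, Od (X j) (a j + p j * (2 * n + 1)))
    (hw : ∀ j ≤ 2 * n, 2 * p j + 2 ≤ cst w t (a j))
    (hp : ∀ j ≤ 2 * n, cst w t (a j) % 2 = 1 → p j % 2 = 0) :
    ∃ (L : ℕ → List ℤ) (W₀ : ℤ), W₀ = ∑ j ∈ Finset.range (2 * n + 1), (cst w t (a j) : ℤ) ∧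
      (∀ j ≤ 2 * n, (L j).length = cst w t (a j)) ∧
      (∀ j ≤ 2 * n, (L j).getLast? =
        some (hd (2 * n + 1) (rt (2 * n + 1) t (a j)) (p j) + W₀)) ∧
      (∀ j ≤ 2 * n, ∀ u ∈ L j, 0 ≤ u ∧ u < W₀) ∧
      (∀ j ≤ 2 * n, (X j :: L j).IsChain Od) ∧
      (∀ u : ℤ, 0 ≤ u → u < W₀ → ∃ j ≤ 2 * n, u ∈ L j) ∧
      (∀ v : ℤ, v % 2 = 1 → (2 * (n : ℤ) + 1) ≤ v → v < 2 * W₀ - (2 * n + 1) →
        ∃ j ≤ 2 * n, Sm (X j :: L j) v) ∧
      (∀ j ≤ 2 * n, Sm (X j :: L j) (X j + (a j + p j * (2 * n + 1)))) := by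
  have hex : ∀ j : ℕ, ∃ l : List ℤ, j ≤ 2 * n → Cls (cst w t (a j)) (p j) l := by
    intro j
    by_cases hj : j ≤ 2 * n
    · obtain ⟨l, hl⟩ := h1 (cst w t (a j)) (p j) (hw j hj) (hp j hj)
      exact ⟨l, fun _ => hl⟩
    · exact ⟨[], fun h => absurd h hj⟩
  choose l hl using hex
  have hW : (((2 * n + 1) * w + t : ℕ) : ℤ) =
      ∑ j ∈ Finset.range (2 * n + 1), (cst w t (a j) : ℤ) := by
    rw [← sum_a n w t a ht ha hs]; push_cast; rfl
  have hhead : ∀ j ≤ 2 * n, (cm (2 * n + 1) (a j) (l j)).head? =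
      some ((a j : ℤ) + p j * (2 * n + 1)) := by
    intro j hj
    obtain ⟨-, h, -⟩ := hl j hj
    rw [cm, List.head?_map, h]
    simp only [Option.map_some, Option.some.injEq]
    ring
  refine ⟨fun j => cm (2 * n + 1) (a j) (l j), (((2 * n + 1) * w + t : ℕ) : ℤ), hW,
    ?_, ?_, ?_, ?_, ?_, ?_, ?_⟩
  · intro j hj
    obtain ⟨h, -⟩ := hl j hj
    simp [cm, h]
  · intro j hj
    obtain ⟨-, -, h, -⟩ := hl j hj
    have haj := ha j hj
    simp only [cm]
    rw [List.getLast?_map, h]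
    simp only [Option.map_some, Option.some.injEq]
    unfold hd rt cst
    split_ifs with h3
    · have h4 : ((a j + (2 * n + 1) - t : ℕ) : ℤ) = (a j : ℤ) + (2 * n + 1) - t := by
        rw [Nat.cast_sub (by omega)]; push_cast; ring
      rw [h4]; push_cast; ring
    · have h4 : ((a j - t : ℕ) : ℤ) = (a j : ℤ) - t := by
        rw [Nat.cast_sub (by omega)]
      rw [h4]; push_cast; ring
  · intro j hj u hu
    obtain ⟨-, -, -, -, h, -⟩ := hl j hj
    simp only [cm, List.mem_map] at hu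
    obtain ⟨y, hy, rfl⟩ := hu
    obtain ⟨hy1, hy2⟩ := h y hy
    have haj := ha j hj
    obtain ⟨y', rfl⟩ := Int.eq_ofNat_of_zero_le hy1
    have h5 := cst_lt (2 * n + 1) w t (a j) y' (by omega) (by exact_mod_cast hy2)
    constructor
    · positivity
    · have h6 : ((a j + (2 * n + 1) * y' : ℕ) : ℤ) < (((2 * n + 1) * w + t : ℕ) : ℤ) := by
        exact_mod_cast h5
      calc ((a j : ℤ) + (2 * n + 1) * (y' : ℕ)) = ((a j + (2 * n + 1) * y' : ℕ) : ℤ) := by
            push_cast; ring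
        _ < _ := h6
  · intro j hj
    have hc := chain_map n (a j) (l j) (hl j hj).2.2.2.2.2.2
    have hh := hhead j hj
    have ho := hod j hj
    show (X j :: cm (2 * n + 1) (a j) (l j)).IsChain Od
    revert hc hh
    generalize cm (2 * (n : ℤ) + 1) (a j) (l j) = l'
    intro hc hh
    cases l' with
    | nil => simp
    | cons z l' =>
      simp only [List.head?_cons, Option.some.injEq] at hh
      subst hh
      exact List.isChain_cons_cons.mpr ⟨ho, hc⟩
  · intro N hN0 hN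
    obtain ⟨N', rfl⟩ := Int.eq_ofNat_of_zero_le hN0
    have hN' : N' < (2 * n + 1) * w + t := by exact_mod_cast hN
    have hmod : N' % (2 * n + 1) < 2 * n + 1 := Nat.mod_lt _ (by omega)
    have hdm := Nat.mod_add_div N' (2 * n + 1)
    obtain ⟨j, hj, hj2⟩ := hs (N' % (2 * n + 1)) (by omega)
    have h5 := lt_cst (2 * n + 1) w t (N' % (2 * n + 1)) (N' / (2 * n + 1)) ht (by omega)
    refine ⟨j, hj, ?_⟩
    obtain ⟨-, -, -, h, -⟩ := hl j hj
    simp only [cm, List.mem_map]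
    refine ⟨((N' / (2 * n + 1) : ℕ) : ℤ), h _ (by positivity) (by rw [hj2]; exact_mod_cast h5), ?_⟩
    rw [hj2]
    exact_mod_cast hdm
  · intro v hv hv1 hv2
    obtain ⟨m, hm⟩ : ∃ m : ℕ, v = (2 * n + 1) + 2 * (m : ℤ) := by
      refine ⟨((v - (2 * n + 1)) / 2).toNat, ?_⟩
      omega
    have hm2 : m + (2 * n + 1) < (2 * n + 1) * w + t := by
      have : (m : ℤ) + (2 * n + 1) < (((2 * n + 1) * w + t : ℕ) : ℤ) := by
        linarith
      exact_mod_cast this
    have hmod : m % (2 * n + 1) < 2 * n + 1 := Nat.mod_lt _ (by omega)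
    have hdm := Nat.mod_add_div m (2 * n + 1)
    obtain ⟨j, hj, hj2⟩ := hs (m % (2 * n + 1)) (by omega)
    have h5 := lt_cst (2 * n + 1) w t (m % (2 * n + 1)) (m / (2 * n + 1) + 1) ht (by
      have : (2 * n + 1) * (m / (2 * n + 1) + 1) =
        (2 * n + 1) * (m / (2 * n + 1)) + (2 * n + 1) := by ring
      omega)
    refine ⟨j, hj, Sm_cons _ _ _ ?_⟩
    obtain ⟨-, -, -, -, -, h, -⟩ := hl j hj
    have h6 := h ((m / (2 * n + 1) : ℕ) : ℤ) (by positivity) (by
      rw [hj2]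
      have : ((m / (2 * n + 1) + 1 : ℕ) : ℤ) < (cst w t (m % (2 * n + 1)) : ℤ) := by
        exact_mod_cast h5
      push_cast at this ⊢
      linarith)
    have h7 := Sm_map (2 * n + 1) (a j) (l j) _ h6
    have h8 : 2 * (a j : ℤ) + (2 * n + 1) * (2 * ((m / (2 * n + 1) : ℕ) : ℤ) + 1) = v := by
      have h9 : ((m % (2 * n + 1) + (2 * n + 1) * (m / (2 * n + 1)) : ℕ) : ℤ) = m := by
        exact_mod_cast hdm
      rw [hj2, hm]
      push_cast at h9 ⊢
      linarith
    rw [h8] at h7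
    exact h7
  · intro j hj
    exact Sm_head _ _ _ (hhead j hj)

end StepAux

open StepAux

theorem step (h1 : ClsStm) (h2 : GlueStm) : StepStm := by
  intro n x a p w t ht ha hs hod hcr hw hp
  obtain ⟨L, W₀, hW, hlen, hlast, hb, hch, hcov, hsum, hhd⟩ := core h1 n x a p w t ht ha hs hod hw hp
  refine h2 n x _ L _ W₀ hW hlen hlast hb hch hcov ?_
  intro v hv hv1 hv2
  by_cases hv3 : 2 * (n : ℤ) + 1 ≤ v
  · exact hsum v hv hv3 hv2
  · obtain ⟨j, hj, hj2⟩ := hcr ((v + (2 * n + 1)) / 2) (by omega) (by omega)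
    refine ⟨j, hj, ?_⟩
    have h3 := hhd j hj
    rw [hj2] at h3
    have h4 : 2 * ((v + (2 * (n : ℤ) + 1)) / 2) - (2 * n + 1) = v := by omega
    rw [h4] at h3
    exact h3

theorem stepF (h1 : ClsStm) (h2 : GlueFStm) : StepFStm := by
  intro n k x a p w t hk ht ha hs hod hxk hcr hw hp
  obtain ⟨L, W₀, hW, hlen, hlast, hb, hch, hcov, hsum, hhd⟩ :=
    core h1 n (fun j => x (sk k j)) a p w t ht ha hs hod hw hp
  refine h2 n k x _ L (fun j => cst w t (a j)) W₀ hk hW hlen hlast hb hch hxk hcov ?_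
  intro v hv hv1 hv2
  by_cases hv3 : 2 * (n : ℤ) + 1 ≤ v
  · exact Or.inr (hsum v hv hv3 hv2)
  · have h4 : 2 * ((v + (2 * (n : ℤ) + 3)) / 2) - (2 * n + 3) = v := by omega
    rcases hcr ((v + (2 * n + 3)) / 2) (by omega) (by omega) with hj2 | ⟨j, hj, hj2⟩
    · left
      rw [hj2, h4]
    · right
      refine ⟨j, hj, ?_⟩
      have h3 := hhd j hj
      rw [hj2, h4] at h3
      exact h3

end Pool.Agent.Y790.LG
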