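import Pool.Agent.Y790.LG.Def

/-!
# Gluing segments in front of a completion: the common part
-/

set_option autoImplicit false

namespace Pool.Agent.Y790.LG

lemma Od.symm' {a b : ℤ} (h : Od a b) : Od b a := by
  unfold Od at *
  rw [add_comm]
  exact h

lemma od_add {a b W : ℤ} (h : Od a b) : Od (a + W) (b + W) := by
  unfold Od at *
  omega

lemma Sm.inFx {l l' : List ℤ} {v : ℤ} (h : Sm l v) (hl : l <:+: l') : Sm l' v := by
  obtain ⟨a, b, h1, h2⟩ := h
  exact ⟨a, b, h1.trans hl, h2⟩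

lemma Sm.reverse {l : List ℤ} {v : ℤ} (h : Sm l v) : Sm l.reverse v := by
  obtain ⟨a, b, h1, h2⟩ := h
  refine ⟨b, a, ?_, by rw [add_comm]; exact h2⟩
  have := List.reverse_infix.2 h1
  simpa using this

lemma Sm.shift {l : List ℤ} {v W : ℤ} (h : Sm l (v - 2 * W)) : Sm (l.map (· + W)) v := by
  obtain ⟨a, b, ⟨s, t, h1⟩, h2⟩ := h
  refine ⟨a + W, b + W, ⟨s.map (· + W), t.map (· + W), ?_⟩, by linarith⟩
  rw [← h1]
  simp

lemma chain_reverse {l : List ℤ} (h : l.IsChain Od) : l.reverse.IsChain Od := by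
  rw [List.isChain_reverse]
  exact h.imp fun _ _ h => h.symm'

lemma chain_shift {l : List ℤ} (W : ℤ) (h : l.IsChain Od) : (l.map (· + W)).IsChain Od := by
  rw [List.isChain_map]
  exact h.imp fun _ _ h => od_add h

/-- the list of the new vertices of a pair -/
def Zl (A Q B : List ℤ) (W : ℤ) : List ℤ := A ++ Q.map (· + W) ++ B.reverse

lemma Zl_length (A Q B : List ℤ) (W : ℤ) : (Zl A Q B W).length = Q.length + (A.length + B.length) := by
  unfold Zl
  simp
  omega

lemma mem_Zl {A Q B : List ℤ} {W u : ℤ} : u ∈ Zl A Q B W ↔ u ∈ A ∨ u - W ∈ Q ∨ u ∈ B := by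
  unfold Zl
  rw [List.mem_append, List.mem_append, List.mem_reverse, List.mem_map, or_assoc]
  constructor
  · rintro (h | ⟨a, h, rfl⟩ | h)
    · exact Or.inl h
    · right; left
      rwa [add_sub_cancel_right]
    · exact Or.inr (Or.inr h)
  · rintro (h | h | h)
    · exact Or.inl h
    · exact Or.inr (Or.inl ⟨u - W, h, by ring⟩)
    · exact Or.inr (Or.inr h)

lemma exists_last {A : List ℤ} {a : ℤ} (h : A.getLast? = some a) : ∃ A', A = A' ++ [a] := by
  rw [List.getLast?_eq_some_iff] at h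
  exact h

lemma pair_chain {A Q B : List ℤ} {W a b x y : ℤ} (hA : A.getLast? = some (a + W))
    (hB : B.getLast? = some (b + W)) (h1 : (x :: A).IsChain Od) (h2 : (y :: B).IsChain Od)
    (h3 : (a :: (Q ++ [b])).IsChain Od) : (x :: (Zl A Q B W ++ [y])).IsChain Od := by
  obtain ⟨A', rfl⟩ := exists_last hA
  obtain ⟨B', rfl⟩ := exists_last hB
  have c1 : (x :: A' ++ [a + W]).IsChain Od := h1
  have c2 : ([a + W] ++ (Q.map (· + W) ++ [b + W])).IsChain Od := by
    have := chain_shift W h3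
    simpa using this
  have c3 : ([b + W] ++ (B'.reverse ++ [y])).IsChain Od := by
    have := chain_reverse h2
    simpa using this
  have d1 := c1.append_overlap c2 (by simp)
  have d1' : ((x :: A' ++ [a + W] ++ Q.map (· + W)) ++ [b + W]).IsChain Od := by
    simpa using d1
  have d2 := d1'.append_overlap c3 (by simp)
  unfold Zl
  simpa using d2

lemma pair_left {A Q B : List ℤ} {W x y : ℤ} : (x :: A) <:+: (x :: (Zl A Q B W ++ [y])) := by
  refine List.IsPrefix.isInfix ⟨Q.map (· + W) ++ B.reverse ++ [y], ?_⟩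
  unfold Zl
  simp

lemma pair_right {A Q B : List ℤ} {W x y : ℤ} : (y :: B).reverse <:+: (x :: (Zl A Q B W ++ [y])) := by
  refine List.IsSuffix.isInfix ⟨x :: (A ++ Q.map (· + W)), ?_⟩
  unfold Zl
  simp

lemma pair_mid {A Q B : List ℤ} {W a b x y : ℤ} (hA : A.getLast? = some (a + W))
    (hB : B.getLast? = some (b + W)) :
    (a :: (Q ++ [b])).map (· + W) <:+: (x :: (Zl A Q B W ++ [y])) := by
  obtain ⟨A', rfl⟩ := exists_last hA
  obtain ⟨B', rfl⟩ := exists_last hB
  refine ⟨x :: A', B'.reverse ++ [y], ?_⟩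
  unfold Zl
  simp

lemma one_chain {A Q : List ℤ} {W a x : ℤ} (hA : A.getLast? = some (a + W))
    (h1 : (x :: A).IsChain Od) (h3 : (a :: Q).IsChain Od) :
    (x :: (A ++ Q.map (· + W))).IsChain Od := by
  obtain ⟨A', rfl⟩ := exists_last hA
  have c1 : (x :: A' ++ [a + W]).IsChain Od := h1
  have c2 : ([a + W] ++ Q.map (· + W)).IsChain Od := by
    have := chain_shift W h3
    simpa using this
  have d1 := c1.append_overlap c2 (by simp)
  simpa using d1

lemma one_left {A Q : List ℤ} {W x : ℤ} : (x :: A) <:+: (x :: (A ++ Q.map (· + W))) := by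
  refine List.IsPrefix.isInfix ⟨Q.map (· + W), ?_⟩
  simp

lemma one_mid {A Q : List ℤ} {W a x : ℤ} (hA : A.getLast? = some (a + W)) :
    (a :: Q).map (· + W) <:+: (x :: (A ++ Q.map (· + W))) := by
  obtain ⟨A', rfl⟩ := exists_last hA
  refine List.IsSuffix.isInfix ⟨x :: A', ?_⟩
  simp

lemma sum_pairs (c : ℕ → ℤ) (n : ℕ) : ∑ j ∈ Finset.range (2 * n + 1), c j =
    ∑ m ∈ Finset.range n, (c (2 * m) + c (2 * m + 1)) + c (2 * n) := by
  induction n with
  | zero => simp
  | succ n ih =>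
    rw [show 2 * (n + 1) + 1 = (2 * n + 1) + 1 + 1 by ring, Finset.sum_range_succ,
      Finset.sum_range_succ, ih, Finset.sum_range_succ, show 2 * (n + 1) = 2 * n + 1 + 1 by ring]
    ring

/-- the common part of the two ways of gluing -/
theorem core (n : ℕ) (x y : ℕ → ℤ) (L : ℕ → List ℤ) (c : ℕ → ℕ) (W₀ : ℤ)
    (hW₀ : W₀ = ∑ j ∈ Finset.range (2 * n + 1), (c j : ℤ))
    (hlen : ∀ j ≤ 2 * n, (L j).length = c j)
    (hlast : ∀ j ≤ 2 * n, (L j).getLast? = some (y j + W₀))
    (hbd : ∀ j ≤ 2 * n, ∀ u ∈ L j, 0 ≤ u ∧ u < W₀)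
    (hch : ∀ j ≤ 2 * n, (x j :: L j).IsChain Od)
    (hcov : ∀ u : ℤ, 0 ≤ u → u < W₀ → ∃ j ≤ 2 * n, u ∈ L j)
    (ℓ : ℕ → ℕ) (g : ℕ) (hS : St n y ℓ g) :
    ∃ (W : ℤ) (P : ℕ → List ℤ) (G : List ℤ),
      W = (∑ m ∈ Finset.range n, ((ℓ m + (c (2 * m) + c (2 * m + 1)) : ℕ) : ℤ)) +
        ((g + c (2 * n) : ℕ) : ℤ) ∧
      (∀ m < n, (P m).length = ℓ m + (c (2 * m) + c (2 * m + 1))) ∧ G.length = g + c (2 * n) ∧
      (∀ y : ℤ, 0 ≤ y → y < W → y ∈ G ∨ ∃ m < n, y ∈ P m) ∧
      (∀ y ∈ G, 0 ≤ y ∧ y < W) ∧ (∀ m < n, ∀ y ∈ P m, 0 ≤ y ∧ y < W) ∧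
      (∀ v : ℤ, v % 2 = 1 → 2 * W₀ - (2 * (n : ℤ) + 1) ≤ v → v ≤ 2 * W - 3 →
        Sm (x (2 * n) :: G) v ∨ ∃ m < n, Sm (x (2 * m) :: (P m ++ [x (2 * m + 1)])) v) ∧
      (∀ j ≤ 2 * n, ∀ v : ℤ, Sm (x j :: L j) v →
        Sm (x (2 * n) :: G) v ∨ ∃ m < n, Sm (x (2 * m) :: (P m ++ [x (2 * m + 1)])) v) ∧
      (x (2 * n) :: G).IsChain Od ∧
      (∀ m < n, (x (2 * m) :: (P m ++ [x (2 * m + 1)])).IsChain Od) := by
  obtain ⟨W', P', G', hW', hP', hG', hc', hbG', hbP', hs', hcG', hcP'⟩ := hS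
  have hW0 : 0 ≤ W₀ := by
    rw [hW₀]
    exact Finset.sum_nonneg fun j _ => by positivity
  have hWp : 0 ≤ W' := by
    rw [hW']
    have : (0 : ℤ) ≤ ∑ m ∈ Finset.range n, (ℓ m : ℤ) := Finset.sum_nonneg fun j _ => by positivity
    omega
  refine ⟨W₀ + W', fun m => Zl (L (2 * m)) (P' m) (L (2 * m + 1)) W₀,
    L (2 * n) ++ G'.map (· + W₀), ?_, ?_, ?_, ?_, ?_, ?_, ?_, ?_, ?_, ?_⟩
  · rw [hW₀, hW', sum_pairs]
    push_cast
    simp only [Finset.sum_add_distrib]
    ring
  · intro m hm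
    rw [Zl_length, hP' m hm, hlen _ (by omega), hlen _ (by omega)]
  · rw [List.length_append, List.length_map, hG', hlen _ le_rfl, add_comm]
  · intro u h0 h1
    by_cases hu : u < W₀
    · obtain ⟨j, hj, hju⟩ := hcov u h0 hu
      by_cases hj2 : j = 2 * n
      · left
        rw [List.mem_append]
        left
        rwa [← hj2]
      · right
        refine ⟨j / 2, by omega, mem_Zl.2 ?_⟩
        rcases Nat.mod_two_eq_zero_or_one j with h | h
        · left
          rwa [show 2 * (j / 2) = j by omega]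
        · right; right
          rwa [show 2 * (j / 2) + 1 = j by omega]
    · rcases hc' (u - W₀) (by omega) (by omega) with h | ⟨m, hm, h⟩
      · left
        rw [List.mem_append, List.mem_map]
        exact Or.inr ⟨_, h, by ring⟩
      · right
        exact ⟨m, hm, mem_Zl.2 (Or.inr (Or.inl h))⟩
  · intro u hu
    rw [List.mem_append, List.mem_map] at hu
    rcases hu with h | ⟨a, h, rfl⟩
    · have := hbd _ le_rfl u h
      omega
    · have := hbG' a h
      omega
  · intro m hm u hu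
    rw [mem_Zl] at hu
    rcases hu with h | h | h
    · have := hbd (2 * m) (by omega) u h
      omega
    · have := hbP' m hm _ h
      omega
    · have := hbd (2 * m + 1) (by omega) u h
      omega
  · intro v hv h1 h2
    rcases hs' (v - 2 * W₀) (by omega) (by omega) (by omega) with h | ⟨m, hm, h⟩
    · left
      exact h.shift.inFx (one_mid (hlast _ le_rfl))
    · right
      exact ⟨m, hm, h.shift.inFx (pair_mid (hlast _ (by omega)) (hlast _ (by omega)))⟩
  · intro j hj v h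
    by_cases hj2 : j = 2 * n
    · left
      subst hj2
      exact h.inFx one_left
    · right
      refine ⟨j / 2, by omega, ?_⟩
      rcases Nat.mod_two_eq_zero_or_one j with h3 | h3
      · obtain ⟨m, rfl⟩ : ∃ m, j = 2 * m := ⟨j / 2, by omega⟩
        rw [show 2 * m / 2 = m by omega]
        exact h.inFx pair_left
      · obtain ⟨m, rfl⟩ : ∃ m, j = 2 * m + 1 := ⟨j / 2, by omega⟩
        rw [show (2 * m + 1) / 2 = m by omega]
        exact h.reverse.inFx pair_right
  · exact one_chain (hlast _ le_rfl) (hch _ le_rfl) hcG'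
  · intro m hm
    exact pair_chain (hlast _ (by omega)) (hlast _ (by omega)) (hch _ (by omega))
      (hch _ (by omega)) (hcP' m hm)

end Pool.Agent.Y790.LG
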